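import Pool.Agent.Run7.h432.LV.Stm3

/-!
# Project LV (helper432), piece DK (helper354)
-/

set_option autoImplicit false

namespace Run7.h354.LV

open Run7.h432.LV Polynomial

universe u

/-! ### congruence modulo `X ^ N` -/

/-- the polynomials without coefficients below `N` -/
def KN (U : Type u) [Ring U] (N : ℕ) : Ideal (Polynomial U) where
  carrier := {p | ∀ n, n < N → p.coeff n = 0}
  add_mem' := fun {a b} ha hb n hn => by
    rw [Polynomial.coeff_add, ha n hn, hb n hn, add_zero]
  zero_mem' := fun n _ => by rw [Polynomial.coeff_zero]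
  smul_mem' := fun c p hp n hn => by
    rw [smul_eq_mul, Polynomial.coeff_mul]
    refine Finset.sum_eq_zero fun q hq => ?_
    have h1 := Finset.HasAntidiagonal.mem_antidiagonal.1 hq
    rw [hp q.2 (by omega), mul_zero]

instance (U : Type u) [Ring U] (N : ℕ) : (KN U N).IsTwoSided where
  mul_mem_of_left := fun {a} b ha n hn => by
    rw [Polynomial.coeff_mul]
    refine Finset.sum_eq_zero fun q hq => ?_
    have h1 := Finset.HasAntidiagonal.mem_antidiagonal.1 hq
    rw [ha q.1 (by omega), zero_mul]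

instance (U : Type u) [Ring U] (I : Ideal U) [I.IsTwoSided] : (polyIdeal I).IsTwoSided where
  mul_mem_of_left := fun {a} b ha n => by
    rw [Polynomial.coeff_mul]
    exact I.sum_mem fun q _ => I.mul_mem_right _ (ha _)

variable {U : Type u} [Ring U]

/-- reduction modulo `X ^ N` -/
noncomputable def pr (U : Type u) [Ring U] (N : ℕ) : Polynomial U →+* (Polynomial U ⧸ KN U N) :=
  Ideal.Quotient.mk (KN U N)

lemma pr_eq {N : ℕ} {a b : Polynomial U} : pr U N a = pr U N b ↔ ∀ n, n < N → a.coeff n = b.coeff n := by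
  unfold pr
  rw [Ideal.Quotient.eq]
  constructor
  · intro h n hn
    have := h n hn
    rw [coeff_sub] at this
    exact sub_eq_zero.1 this
  · intro h n hn
    rw [coeff_sub, h n hn, sub_self]

lemma pr_X_pow {N k : ℕ} (hk : N ≤ k) (t : Polynomial U) : pr U N (X ^ k * t) = 0 := by
  rw [← map_zero (pr U N), pr_eq]
  intro n hn
  rw [coeff_X_pow_mul', if_neg (by omega), coeff_zero]

lemma map_ev_congr {P Q : Type u} [Ring P] [Ring Q] {ι : Type} (f : P →+* Q) (w : List (P ⊕ ι))
    (x x' : ι → P) (h : ∀ i, f (x i) = f (x' i)) : f (ev w x) = f (ev w x') := by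
  unfold ev
  rw [map_list_prod, map_list_prod, List.map_map, List.map_map]
  congr 1
  apply List.map_congr_left
  intro a _
  rcases a with a | i
  · rfl
  · exact h i

lemma map_alt_congr {P Q : Type u} [Ring P] [Ring Q] {n : ℕ} (f : P →+* Q) (w : List (P ⊕ Fin n))
    (x x' : Fin n → P) (h : ∀ i, f (x i) = f (x' i)) : f (alt w x) = f (alt w x') := by
  unfold alt
  rw [map_sum, map_sum]
  refine Finset.sum_congr rfl fun σ _ => ?_
  rw [map_zsmul, map_zsmul, map_ev_congr f w (x ∘ σ) (x' ∘ σ) (fun i => h (σ i))]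

/-- `g` is good -/
def Good (I : Ideal U) (m N : ℕ) (g : Polynomial U) : Prop :=
  ∀ w w' : List (Polynomial U ⊕ Fin m), Once w → Once w' → ∀ (c : Polynomial U)
    (x y : Fin m → Polynomial U), (∀ i, x i ∈ polyIdeal I) → (∀ i, y i ∈ polyIdeal I) →
    pr U N (alt w (fun i => g * x i) * c * alt w' y) = pr U N (alt w x * c * alt w' y)

variable {I : Ideal U} {m N : ℕ}

lemma Good.congr {g g' : Polynomial U} (hg : Good I m N g) (h : pr U N g = pr U N g') :
    Good I m N g' := by
  intro w w' hw hw' c x y hx hy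
  rw [← hg w w' hw hw' c x y hx hy]
  simp only [map_mul]
  rw [map_alt_congr (pr U N) w (fun i => g' * x i) (fun i => g * x i) (fun i => by
    rw [map_mul, map_mul, h])]

lemma Good.one : Good I m N 1 := by
  intro w w' hw hw' c x y hx hy
  simp only [one_mul]

lemma Good.mul {g h : Polynomial U} (hg : Good I m N g) (hh : Good I m N h) :
    Good I m N (g * h) := by
  intro w w' hw hw' c x y hx hy
  rw [← hh w w' hw hw' c x y hx hy,
    ← hg w w' hw hw' c (fun i => h * x i) y (fun i => (polyIdeal I).mul_mem_left _ (hx i)) hy]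
  simp only [mul_assoc]

lemma good_comm [I.IsTwoSided] (hCOM : S_COM.{u}) (hP : Cap (polyIdeal I) (m + 1))
    {g h g' h' : Polynomial U} (hg : pr U N (g * g') = 1) (hh : pr U N (h * h') = 1) :
    Good I m N (g * h * g' * h') := by
  intro w w' hw hw' c x y hx hy
  have h1 := hCOM (Polynomial U) (polyIdeal I) m hP w w' hw hw' c g h
    (fun i => g' * h' * x i) y (fun i => (polyIdeal I).mul_mem_left _ (hx i)) hy
  have h2 : (fun i => g * h * g' * h' * x i) = fun i => g * h * (g' * h' * x i) := by
    funext i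
    simp only [mul_assoc]
  rw [h2, h1]
  simp only [map_mul]
  rw [map_alt_congr (pr U N) w (fun i => h * g * (g' * h' * x i)) x]
  intro i
  rw [map_mul] at hg hh
  simp only [map_mul]
  calc pr U N h * pr U N g * (pr U N g' * pr U N h' * pr U N (x i))
      = pr U N h * (pr U N g * pr U N g') * pr U N h' * pr U N (x i) := by simp only [mul_assoc]
    _ = pr U N (x i) := by rw [hg, mul_one, hh, one_mul]

/-! ### inverses -/

lemma exists_inv (k : ℕ) (t : Polynomial U) : ∃ u' : Polynomial U,
    pr U N ((1 + X ^ (k + 1) * t) * u') = 1 := by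
  refine ⟨∑ i ∈ Finset.range N, (-(X ^ (k + 1) * t)) ^ i, ?_⟩
  have h1 : (1 + X ^ (k + 1) * t) = 1 - (-(X ^ (k + 1) * t)) := by rw [sub_neg_eq_add]
  rw [h1, mul_neg_geom_sum, map_sub, map_one]
  have h2 : (-(X ^ (k + 1) * t)) ^ N = X ^ ((k + 1) * N) * (-t) ^ N := by
    rw [← mul_neg, Commute.mul_pow (commute_X_pow (-t) (k + 1)), ← pow_mul]
  rw [h2, pr_X_pow (by nlinarith [Nat.zero_le (k * N)]), sub_zero]

/-! ### calculations in a ring with a central element -/

lemma comm_calc {Q : Type u} [Ring Q] (z p q g' h' : Q) (hc : ∀ a, a * z = z * a) (j : ℕ)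
    (hg : (1 + z * p) * g' = 1) (hh : (1 + z ^ (j + 1) * q) * h' = 1) :
    (1 + z * p) * (1 + z ^ (j + 1) * q) * g' * h' =
      1 + z ^ (j + 2) * (p * q - q * p) + z ^ (j + 3) *
        (-(z ^ j * ((p * q - q * p) * (q * h'))) - (p * q - q * p) * (p * (g' * h'))) := by
  have hcn : ∀ (n : ℕ) (a : Q), a * z ^ n = z ^ n * a := fun n a => by
    have : Commute a z := hc a
    exact (this.pow_right n).eq
  obtain ⟨y, hy⟩ : ∃ y, y = z ^ (j + 1) := ⟨_, rfl⟩
  have hyc : ∀ a, a * y = y * a := fun a => by rw [hy]; exact hcn _ a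
  obtain ⟨s, hs⟩ : ∃ s, s = p * q - q * p := ⟨_, rfl⟩
  have e2 : z ^ (j + 2) = z * y := by rw [hy, ← pow_succ']
  have e3 : z ^ (j + 3) = z * (z * y) := by rw [hy, ← pow_succ', ← pow_succ']
  have e4 : z ^ (j + 3) * z ^ j = z * y * y := by
    rw [hy, ← pow_add, ← pow_succ', ← pow_add]
    congr 1
    omega
  rw [← hs]
  have k1 : (1 + z * p) * (1 + y * q) = (1 + y * q) * (1 + z * p) + z * y * s := by
    have a1 : z * p * (y * q) = z * y * (p * q) := by
      rw [mul_assoc z p, ← mul_assoc p y q, hyc p, mul_assoc y p q, ← mul_assoc z y]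
    have a2 : y * q * (z * p) = z * y * (q * p) := by
      rw [mul_assoc y q, ← mul_assoc q z p, hc q, mul_assoc z q p, ← mul_assoc y z, hc y]
    rw [hs]
    simp only [mul_add, add_mul, one_mul, mul_one, a1, a2, mul_sub]
    abel
  have k2 : g' = 1 - z * (p * g') := by
    rw [add_mul, one_mul, mul_assoc] at hg
    rw [← hg]
    abel
  have k3 : h' = 1 - y * (q * h') := by
    rw [← hy, add_mul, one_mul, mul_assoc] at hh
    rw [← hh]
    abel
  have k4 : g' * h' = 1 - y * (q * h') - z * (p * (g' * h')) := by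
    calc g' * h' = (1 - z * (p * g')) * h' := by rw [← k2]
      _ = h' - z * (p * (g' * h')) := by rw [sub_mul, one_mul]; simp only [mul_assoc]
      _ = 1 - y * (q * h') - z * (p * (g' * h')) := by rw [← k3]
  have k5 : (1 + z * p) * (1 + y * q) * g' * h' = 1 + z * y * (s * (g' * h')) := by
    rw [k1, add_mul, add_mul, mul_assoc (1 + y * q), hg, mul_one, hy, hh, mul_assoc _ g' h',
      mul_assoc _ s]
  rw [← hy, k5, e2]
  have k6 : z ^ (j + 3) * (-(z ^ j * (s * (q * h'))) - s * (p * (g' * h'))) =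
      - (z * y * y * (s * (q * h'))) - z * (z * y) * (s * (p * (g' * h'))) := by
    rw [mul_sub, mul_neg, ← mul_assoc, e4, e3]
  rw [k6, add_assoc]
  congr 1
  have k7 : s * (g' * h') = s - y * (s * (q * h')) - z * (s * (p * (g' * h'))) := by
    conv_lhs => rw [k4]
    rw [mul_sub, mul_sub, mul_one, ← mul_assoc s y, hyc s, ← mul_assoc s z, hc s]
    simp only [mul_assoc]
  rw [k7, mul_sub, mul_sub]
  have k8 : z * y * (z * (s * (p * (g' * h')))) = z * (z * y) * (s * (p * (g' * h'))) := by
    rw [← mul_assoc (z * y) z, hc (z * y)]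
  rw [k8, ← mul_assoc (z * y) y]
  abel

lemma add_calc {Q : Type u} [Ring Q] (y a b : Q) (hy : a * y = y * a) :
    (1 + y * a) * (1 + y * b) = 1 + y * (a + b) + y * y * (a * b) := by
  have h1 : y * a * (y * b) = y * y * (a * b) := by
    rw [mul_assoc y a, ← mul_assoc a y b, hy, mul_assoc y a b, ← mul_assoc]
  simp only [mul_add, add_mul, one_mul, mul_one, h1]
  abel

/-! ### the induction -/

lemma C_mem {s : U} (hs : s ∈ I) : (C s : Polynomial U) ∈ polyIdeal I := by
  intro n
  rw [coeff_C]
  split_ifs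
  · exact hs
  · exact I.zero_mem

lemma adjust (k : ℕ) (hIH : ∀ b ∈ polyIdeal I, Good I m N (1 + X ^ (k + 1) * b))
    {A A' B t : Polynomial U} (hA : Good I m N A) (hA' : pr U N (A * A') = 1)
    (ht : t ∈ polyIdeal I) (hB : pr U N B = pr U N (A + X ^ (k + 1) * t)) : Good I m N B := by
  have h1 := hA.mul (hIH (A' * t) ((polyIdeal I).mul_mem_left _ ht))
  refine h1.congr ?_
  rw [hB]
  have h2 : A * (1 + X ^ (k + 1) * (A' * t)) = A + X ^ (k + 1) * (A * A' * t) := by
    rw [mul_add, mul_one, ← mul_assoc A, ← X_pow_mul (p := A), mul_assoc]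
    simp only [mul_assoc]
  rw [h2, map_add, map_add, map_mul, map_mul (pr U N) (A * A') t, hA', one_mul, ← map_mul]

/-- the induction hypothesis for elements with a given constant coefficient -/
def QQ (I : Ideal U) (m N k : ℕ) (s : U) : Prop :=
  ∀ r ∈ polyIdeal I, Good I m N (1 + X ^ k * C s + X ^ (k + 1) * r)

lemma QQ_comm [I.IsTwoSided] (hCOM : S_COM.{u}) (hP : Cap (polyIdeal I) (m + 1)) (j : ℕ)
    (hIH : ∀ b ∈ polyIdeal I, Good I m N (1 + X ^ (j + 2 + 1) * b)) {p q : U} (hp : p ∈ I)
    (hq : q ∈ I) : QQ I m N (j + 2) (p * q - q * p) := by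
  intro r hr
  obtain ⟨g', hg'⟩ := exists_inv (N := N) 0 (C p : Polynomial U)
  obtain ⟨h', hh'⟩ := exists_inv (N := N) j (C q : Polynomial U)
  rw [zero_add, pow_one] at hg'
  have hG := good_comm (N := N) hCOM hP hg' hh'
  set s : Polynomial U := C (p * q - q * p) with hs
  set t : Polynomial U := -(X ^ j * (s * (C q * h'))) - s * (C p * (g' * h')) with ht
  have hsm : s ∈ polyIdeal I :=
    C_mem (I.sub_mem (I.mul_mem_left _ hq) (I.mul_mem_left _ hp))
  have htm : t ∈ polyIdeal I := by
    apply (polyIdeal I).sub_mem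
    · apply (polyIdeal I).neg_mem
      exact (polyIdeal I).mul_mem_left _ ((polyIdeal I).mul_mem_right _ hsm)
    · exact (polyIdeal I).mul_mem_right _ hsm
  have key : pr U N ((1 + X * C p) * (1 + X ^ (j + 1) * C q) * g' * h') =
      pr U N (1 + X ^ (j + 2) * s + X ^ (j + 3) * t) := by
    have h1 := comm_calc (pr U N X) (pr U N (C p)) (pr U N (C q)) (pr U N g') (pr U N h')
      (fun a => by
        obtain ⟨b, rfl⟩ := Ideal.Quotient.mk_surjective a
        change pr U N b * _ = _ * pr U N b
        rw [← map_mul, ← map_mul, X_mul]) j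
      (by rw [← map_mul, ← map_one (pr U N), ← map_add, ← map_mul, hg', map_one])
      (by rw [← map_pow, ← map_mul, ← map_one (pr U N), ← map_add, ← map_mul, hh', map_one])
    rw [ht, hs]
    simp only [map_add, map_mul, map_sub, map_neg, map_pow, map_one] at h1 ⊢
    exact h1
  obtain ⟨A', hA'⟩ := exists_inv (N := N) (j + 1) (s + X * t)
  have e1 : (1 : Polynomial U) + X ^ (j + 1 + 1) * (s + X * t) =
      1 + X ^ (j + 2) * s + X ^ (j + 3) * t := by
    rw [mul_add, ← mul_assoc, ← pow_succ, ← add_assoc]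
  rw [e1] at hA'
  refine adjust (j + 2) hIH (hG.congr key) hA' ((polyIdeal I).sub_mem hr htm) ?_
  congr 1
  clear_value t s
  rw [mul_sub]
  abel

lemma QQ_add [I.IsTwoSided] (k : ℕ)
    (hIH : ∀ b ∈ polyIdeal I, Good I m N (1 + X ^ (k + 1 + 1) * b)) {s t : U} (hs : s ∈ I)
    (h1 : QQ I m N (k + 1) s) (h2 : QQ I m N (k + 1) t) : QQ I m N (k + 1) (s + t) := by
  intro r hr
  have g1 := h1 0 (polyIdeal I).zero_mem
  have g2 := h2 0 (polyIdeal I).zero_mem
  rw [mul_zero, add_zero] at g1 g2
  obtain ⟨u', hu'⟩ := exists_inv (N := N) k (C s : Polynomial U)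
  obtain ⟨v', hv'⟩ := exists_inv (N := N) k (C t : Polynomial U)
  have hinv : pr U N ((1 + X ^ (k + 1) * C s) * (1 + X ^ (k + 1) * C t) * (v' * u')) = 1 := by
    have e : (1 + X ^ (k + 1) * C s) * (1 + X ^ (k + 1) * C t) * (v' * u') =
        (1 + X ^ (k + 1) * C s) * (((1 + X ^ (k + 1) * C t) * v') * u') := by
      simp only [mul_assoc]
    rw [e, map_mul, map_mul (pr U N) _ u', hv', one_mul, ← map_mul, hu']
  refine adjust (k + 1) hIH (g1.mul g2) hinv
    (t := r - X ^ k * C (s * t)) ((polyIdeal I).sub_mem hr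
      ((polyIdeal I).mul_mem_left _ (C_mem (I.mul_mem_right _ hs)))) ?_
  congr 1
  have e1 := add_calc (X ^ (k + 1)) (C s : Polynomial U) (C t)
    (X_pow_mul (p := C s) (n := k + 1)).symm
  have e2 : X ^ (k + 1 + 1) * (X ^ k * C (s * t)) =
      X ^ (k + 1) * X ^ (k + 1) * ((C s : Polynomial U) * C t) := by
    rw [C_mul, ← mul_assoc, ← pow_add, ← pow_add]
    have : k + 1 + 1 + k = k + 1 + (k + 1) := by omega
    rw [this]
  rw [e1, mul_sub, e2, C_add]
  abel

lemma good_all [I.IsTwoSided] (hCOM : S_COM.{u}) (hP : Cap (polyIdeal I) (m + 1))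
    (hI : Perfect I) (d : ℕ) : ∀ j : ℕ, N ≤ j + 2 + d →
    ∀ b ∈ polyIdeal I, Good I m N (1 + X ^ (j + 2) * b) := by
  induction d with
  | zero =>
    intro j hj b _
    refine Good.one.congr ?_
    rw [map_add, pr_X_pow (by omega), add_zero]
  | succ d ih =>
    intro j hj b hb
    have hIH : ∀ b ∈ polyIdeal I, Good I m N (1 + X ^ (j + 2 + 1) * b) := fun b hb =>
      ih (j + 1) (by omega) b hb
    have main : ∀ s ∈ I, QQ I m N (j + 2) s := by
      intro s hs
      have hcl := hI s hs
      have : s ∈ I ∧ QQ I m N (j + 2) s ∧ QQ I m N (j + 2) (-s) := by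
        clear hs
        induction hcl using AddSubgroup.closure_induction with
        | mem x hx =>
          obtain ⟨a, ha, c, hc, rfl⟩ := hx
          refine ⟨I.sub_mem (I.mul_mem_left _ hc) (I.mul_mem_left _ ha),
            QQ_comm hCOM hP j hIH ha hc, ?_⟩
          rw [neg_sub]
          exact QQ_comm hCOM hP j hIH hc ha
        | zero =>
          have h0 : QQ I m N (j + 2) 0 := by
            intro r hr
            rw [C_0, mul_zero, add_zero]
            exact hIH r hr
          exact ⟨I.zero_mem, h0, by rw [neg_zero]; exact h0⟩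
        | add x y _ _ hx hy =>
          refine ⟨I.add_mem hx.1 hy.1, QQ_add (j + 1) hIH hx.1 hx.2.1 hy.2.1, ?_⟩
          rw [neg_add]
          exact QQ_add (j + 1) hIH (I.neg_mem hx.1) hx.2.2 hy.2.2
        | neg x _ hx =>
          exact ⟨I.neg_mem hx.1, hx.2.2, by rw [neg_neg]; exact hx.2.1⟩
      exact this.2.1
    have h1 := main (b.coeff 0) (hb 0) (divX b) (fun n => by rw [coeff_divX]; exact hb _)
    refine h1.congr ?_
    congr 1
    conv_rhs => rw [← divX_mul_X_add b]
    rw [mul_add, ← X_mul (p := divX b), ← mul_assoc, ← pow_succ]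
    abel

/-! ### the coefficients of the expansion -/

lemma ev_congr {ι : Type} (w : List (U ⊕ ι)) (x x' : ι → U)
    (h : ∀ i, Sum.inr i ∈ w → x i = x' i) : ev w x = ev w x' := by
  unfold ev
  congr 1
  apply List.map_congr_left
  intro a ha
  rcases a with a | i
  · rfl
  · exact h i ha

lemma ev_cons {ι : Type} (a : U ⊕ ι) (w : List (U ⊕ ι)) (x : ι → U) :
    ev (a :: w) x = Sum.elim id x a * ev w x := by
  simp [ev]

/-- a word over `U` as a word over `U[X]` -/
noncomputable def lf (w : List (U ⊕ Fin m)) : List (Polynomial U ⊕ Fin m) :=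
  w.map (Sum.map C id)

lemma lf_filter (w : List (U ⊕ Fin m)) :
    (lf w).filterMap Sum.getRight? = w.filterMap Sum.getRight? := by
  unfold lf
  rw [List.filterMap_map]
  congr 1
  funext a
  rcases a with a | i <;> rfl

lemma lf_once {w : List (U ⊕ Fin m)} (hw : Once w) : Once (lf w) := by
  refine ⟨by rw [lf_filter]; exact hw.1, fun i => ?_⟩
  exact List.mem_map.2 ⟨Sum.inr i, hw.2 i, rfl⟩

omit [Ring U] in
lemma mem_filter_iff (w : List (U ⊕ Fin m)) (i : Fin m) :
    i ∈ w.filterMap Sum.getRight? ↔ Sum.inr i ∈ w := by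
  rw [List.mem_filterMap]
  constructor
  · rintro ⟨a, ha, h⟩
    rcases a with a | l
    · simp at h
    · simp only [Sum.getRight?_inr, Option.some.injEq] at h
      rw [← h]
      exact ha
  · intro h
    exact ⟨_, h, rfl⟩

lemma ev_expand (a b : Fin m → U) : ∀ w : List (U ⊕ Fin m),
    (w.filterMap Sum.getRight?).Nodup →
    ev (lf w) (fun i => C (a i) + X ^ 2 * C (b i)) =
      ∑ S ∈ (w.filterMap Sum.getRight?).toFinset.powerset,
        X ^ (2 * S.card) * C (ev w (fun i => if i ∈ S then b i else a i)) := by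
  intro w
  induction w with
  | nil =>
    intro _
    simp [ev, lf]
  | cons u w ih =>
    intro hn
    rcases u with c | i
    · have hf : (Sum.inl c :: w).filterMap Sum.getRight? = w.filterMap Sum.getRight? := rfl
      rw [hf] at hn ⊢
      have h1 : lf (Sum.inl c :: w) = Sum.inl (C c) :: lf w := rfl
      rw [h1, ev_cons, ih hn]
      simp only [Sum.elim_inl, id]
      rw [Finset.mul_sum]
      refine Finset.sum_congr rfl fun S _ => ?_
      rw [ev_cons, Sum.elim_inl, id, C_mul, ← mul_assoc, ← X_pow_mul, mul_assoc]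
    · have hf : (Sum.inr i :: w).filterMap Sum.getRight? = i :: w.filterMap Sum.getRight? := rfl
      rw [hf] at hn ⊢
      rw [List.nodup_cons] at hn
      have h1 : lf (Sum.inr i :: w) = Sum.inr i :: lf w := rfl
      have hi : i ∉ (w.filterMap Sum.getRight?).toFinset := by
        rw [List.mem_toFinset]; exact hn.1
      rw [h1, ev_cons, ih hn.2, List.toFinset_cons, Finset.sum_powerset_insert hi]
      simp only [Sum.elim_inr]
      rw [add_mul, Finset.mul_sum, Finset.mul_sum]
      congr 1
      · refine Finset.sum_congr rfl fun S hS => ?_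
        have hiS : i ∉ S := fun h => hi (Finset.mem_powerset.1 hS h)
        rw [ev_cons, Sum.elim_inr, if_neg hiS, C_mul, ← mul_assoc, ← X_pow_mul, mul_assoc]
      · refine Finset.sum_congr rfl fun S hS => ?_
        have hiS : i ∉ S := fun h => hi (Finset.mem_powerset.1 hS h)
        rw [ev_cons, Sum.elim_inr, if_pos (Finset.mem_insert_self _ _), C_mul,
          Finset.card_insert_of_notMem hiS]
        have h2 : ev w (fun l => if l ∈ insert i S then b l else a l) =
            ev w (fun l => if l ∈ S then b l else a l) := by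
          apply ev_congr
          intro l hl
          have hli : l ≠ i := by
            rintro rfl
            exact hn.1 ((mem_filter_iff w l).2 hl)
          simp [Finset.mem_insert, hli]
        rw [h2]
        have h3 : 2 * (S.card + 1) = 2 + 2 * S.card := by ring
        rw [h3, pow_add, mul_assoc, mul_assoc, ← mul_assoc (C (b i)), ← X_pow_mul, mul_assoc]

lemma ev_const (y : Fin m → U) (w : List (U ⊕ Fin m)) :
    ev (lf w) (fun i => C (y i)) = C (ev w y) := by
  unfold ev lf
  rw [map_list_prod, List.map_map, List.map_map]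
  congr 1
  apply List.map_congr_left
  intro a _
  rcases a with a | i <;> rfl

lemma alt_const (y : Fin m → U) (w : List (U ⊕ Fin m)) :
    alt (lf w) (fun i => C (y i)) = C (alt w y) := by
  unfold alt
  rw [map_sum]
  refine Finset.sum_congr rfl fun σ _ => ?_
  rw [map_zsmul, ← ev_const]
  rfl

lemma alt_expand (a b : Fin m → U) (w : List (U ⊕ Fin m)) (hw : Once w) :
    alt (lf w) (fun i => C (a i) + X ^ 2 * C (b i)) =
      ∑ S : Finset (Fin m), X ^ (2 * S.card) * C (alt w (fun i => if i ∈ S then b i else a i)) := by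
  have huniv : (w.filterMap Sum.getRight?).toFinset = Finset.univ := by
    ext i
    simp only [List.mem_toFinset, Finset.mem_univ, iff_true]
    exact (mem_filter_iff w i).2 (hw.2 i)
  unfold alt
  have h1 : ∀ σ : Equiv.Perm (Fin m),
      ev (lf w) ((fun i => C (a i) + X ^ 2 * C (b i)) ∘ σ) =
        ∑ S : Finset (Fin m), X ^ (2 * S.card) *
          C (ev w ((fun i => if i ∈ S then b i else a i) ∘ σ)) := by
    intro σ
    have h2 := ev_expand (fun i => a (σ i)) (fun i => b (σ i)) w hw.1
    rw [huniv, Finset.powerset_univ] at h2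
    have h3 : ((fun i => C (a i) + X ^ 2 * C (b i)) ∘ σ) =
        fun i => C (a (σ i)) + X ^ 2 * C (b (σ i)) := rfl
    rw [h3, h2]
    symm
    rw [← Equiv.sum_comp (Equiv.finsetCongr σ)]
    refine Finset.sum_congr rfl fun S _ => ?_
    have h4 : ((fun i => if i ∈ Equiv.finsetCongr σ S then b i else a i) ∘ σ) =
        fun i => if i ∈ S then b (σ i) else a (σ i) := by
      funext i
      have : σ i ∈ Equiv.finsetCongr σ S ↔ i ∈ S := by
        rw [Equiv.finsetCongr_apply, Finset.mem_map_equiv, Equiv.symm_apply_apply]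
      simp only [Function.comp, this]
    rw [h4, Equiv.finsetCongr_apply, Finset.card_map]
  simp only [h1]
  simp only [map_sum, map_zsmul, Finset.smul_sum, Finset.mul_sum]
  rw [Finset.sum_comm]
  refine Finset.sum_congr rfl fun S _ => Finset.sum_congr rfl fun σ _ => ?_
  rw [mul_smul_comm]

theorem t_DK (hCOM : S_COM.{u}) (hPOL : S_POL.{u}) : S_DK.{u} := by
  intro U _ I _ m hcap hI w w' hw hw' c x y hx hy s hs k hk hkm
  have hP := hPOL U I (m + 1) hcap
  have hgood : Good I m (2 * m + 1) (1 + X ^ 2 * C s) :=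
    good_all (N := 2 * m + 1) hCOM hP hI (2 * m + 1) 0 (by omega) (C s) (C_mem hs)
  have h1 := hgood (lf w) (lf w') (lf_once hw) (lf_once hw') (C c) (fun i => C (x i))
    (fun i => C (y i)) (fun i => C_mem (hx i)) (fun i => C_mem (hy i))
  have h2 : (fun i => (1 + X ^ 2 * C s) * C (x i)) =
      fun i => C (x i) + X ^ 2 * C (s * x i) := by
    funext i
    rw [add_mul, one_mul, mul_assoc, ← C_mul]
  rw [h2, alt_expand _ _ w hw, alt_const, alt_const, pr_eq] at h1
  have h3 := h1 (2 * k) (by omega)
  rw [← C_mul, ← C_mul, coeff_C, if_neg (by omega), mul_assoc, ← C_mul, Finset.sum_mul,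
    finsetSum_coeff] at h3
  rw [← h3, Finset.powersetCard_eq_filter, Finset.sum_filter, Finset.powerset_univ]
  refine Finset.sum_congr rfl fun S _ => ?_
  rw [mul_assoc (X ^ (2 * S.card)), ← C_mul, coeff_X_pow_mul']
  split_ifs with h4 h5 h5
  · rw [h4, Nat.sub_self, coeff_C_zero, mul_assoc]
  · omega
  · rw [coeff_C, if_neg (by omega)]
  · rfl

end Run7.h354.LV
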